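import Pool.Agent.TH613.MU.Main

/-!
# The conjecture `μ = 0`: reduction to number fields of degree prime to `p`

`NF` is the type of algebraic extensions of `ℚ` in an algebraic closure of `ℚ`, `Fin K` says that `K`
is a number field, `deg K = [K : ℚ]`, and `fix L B` is the fixed field in `L` of a group `B` of
automorphisms of `L`. `MuLike p 𝒞 P` says that `𝒞` is a class of number fields closed
under subfields and normal closures (for example all number fields, all totally real number fields,
or all subfields of Galois extensions of `ℚ` with a solvable group), and that the property `P` of
fields in `𝒞` behaves like `μ_p = 0` for the cyclotomic `ℤ_p`-extension, `p` odd: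
* `sub`: it passes to subfields;
* `iwasawa`: it passes to Galois extensions of `p`-power degree (Iwasawa 1973);
* `norm`: it passes from the proper intermediate fields of a Galois extension of degree `q r`,
  `q, r ≠ p` primes, with a group `B` that is not cyclic, to the extension. (If `q = r` this follows
  from the identity `q = ∑ N_C - N_B`, the sum over the subgroups `C` of order `q`. If `q < r` then
  `B` is not abelian and it follows from `r = N_D + ∑ N_C - N_B`, the sum over the subgroups `C` of
  order `q`, `D` the subgroup of order `r`.)
* `abelian`: it holds for abelian number fields (Ferrero and Washington 1979).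

Theorem. `P` holds for all number fields in `𝒞` if and only if it holds for the non-abelian `K` in
`𝒞` such that `p` does not divide `[K : ℚ]` and every subgroup of `Aut(K)` whose order is a product
of two primes is cyclic.
-/

set_option autoImplicit false

namespace Pool.Agent.Results.MP_a4986b_nt.PrimeToDegree

open Pool.Agent.TH613.MU

/-- `μ_p = 0` for all number fields follows from its case for the non-abelian number fields `K` of
degree prime to `p` for which each subgroup of `Aut(K)` of order `q r`, `q` and `r` primes, is
cyclic. -/
theorem result (p : ℕ) (hp : p.Prime) (𝒞 P : NF → Prop) (h : MuLike p 𝒞 P) :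
    (∀ K : NF, Fin K → 𝒞 K → P K) ↔
      ∀ K : NF, Fin K → 𝒞 K → ¬ p ∣ deg K → AutCyclic K → ¬ IsAbelianField K → P K :=
  main hp h

end Pool.Agent.Results.MP_a4986b_nt.PrimeToDegree
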